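import Mathlib
import Pool.Agent.V1183.BQ.Fin

/-!
The temperature projection of the weak sigma-attractor of the semi-dissipative Boussinesq system
is the whole space of mean-free square integrable functions; in particular it is dense.
-/

open MeasureTheory Set Filter Topology
open Pool.Agent.V1183.BQ

namespace Pool.Agent.Results.MP_e4edaa_an.WholeProjection

/-- Weak convergence in `L²`. -/
def WkTendsto (f : ℕ → T2 → ℝ) (f0 : T2 → ℝ) : Prop :=
  ∀ φ : T2 → ℝ, MemLp φ 2 mu →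
    Tendsto (fun n => ∫ y, f n y * φ y ∂mu) atTop (𝓝 (∫ y, f0 y * φ y ∂mu))

/-- `(u₀, θ₀)` belongs to the weak sigma-attractor `𝒜`: it is a weak limit of
`(u_n(t_n), θ_n(t_n))`, `t_n → ∞`, where `(u_n, θ_n)` is a solution on `[0, ∞)` and the initial
data `(u_n(0), θ_n(0))` are bounded in `H × L²`. -/
def InWeakAttractor (L ν g : ℝ) (u0 : Fin 2 → T2 → ℝ) (θ0 : T2 → ℝ) : Prop :=
  ∃ (T : ℕ → ℝ) (u : ℕ → ℝ → Fin 2 → T2 → ℝ) (θ : ℕ → ℝ → T2 → ℝ) (M : ℝ),
    (∀ n, 0 ≤ T n) ∧ Tendsto T atTop atTop ∧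
    (∀ n, IsSolution L ν g (Ici 0) (u n) (θ n)) ∧
    (∀ n, NormSqLe (u n 0) (θ n 0) M) ∧
    (∀ i, WkTendsto (fun n => u n (T n) i) (u0 i)) ∧
    WkTendsto (fun n => θ n (T n)) θ0

/-- `P_θ 𝒜` contains every mean-free square integrable function, in particular it is dense. -/
theorem result (L ν g : ℝ) (hL : 0 < L) (hν : 0 < ν) (hg : 0 < g) (θ0 : T2 → ℝ)
    (h0 : InL2 θ0) : ∃ u0 : Fin 2 → T2 → ℝ, InH L u0 ∧ InWeakAttractor L ν g u0 θ0 := by
  obtain ⟨u, θ, M, hsol, hθ0, hM⟩ := main_fun hL hν hg.le θ0 h0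
  have h1 := hsol 0
  simp only [sub_zero] at h1
  refine ⟨u 0, h1.u_H 0 (mem_univ _), fun n => (n : ℝ), fun n t => u (t - n),
    fun n t => θ (t - n), M, fun n => n.cast_nonneg, tendsto_natCast_atTop_atTop,
    fun n => (hsol n).mono' (subset_univ _), fun n => hM _, ?_, ?_⟩
  · intro i φ _
    simp only [sub_self]
    exact tendsto_const_nhds
  · intro φ _
    simp only [sub_self]
    have e : ∫ y, θ 0 y * φ y ∂mu = ∫ y, θ0 y * φ y ∂mu := by
      refine integral_congr_ae ?_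
      filter_upwards [hθ0] with y hy
      rw [hy]
    rw [e]
    exact tendsto_const_nhds

end Pool.Agent.Results.MP_e4edaa_an.WholeProjection
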